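import Mathlib

open Set Topology Filter

namespace Pool.Agent.H.MP_56c207_gt

/-- `γ` parametrizes an arc of `X`. -/
def IsArc {X : Type} [TopologicalSpace X] (γ : unitInterval → X) : Prop :=
  Continuous γ ∧ Function.Injective γ

/-- The endpoints of `X`: points that are an endpoint of every arc containing them. -/
def Ends (X : Type) [TopologicalSpace X] : Set X :=
  {e | ∀ γ : unitInterval → X, IsArc γ → e ∈ range γ → e = γ 0 ∨ e = γ 1}

/-- `S` is the arc (or point) from `t` to `x`. -/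
def IsSeg {X : Type} [TopologicalSpace X] (t x : X) (S : Set X) : Prop :=
  (x = t ∧ S = {t}) ∨ ∃ γ : unitInterval → X, IsArc γ ∧ γ 0 = t ∧ γ 1 = x ∧ range γ = S

/-- `X` is a smooth fan with top `t`. -/
structure SmoothFan (X : Type) [MetricSpace X] (t : X) : Prop where
  compact : CompactSpace X
  arcwise : ∀ x y : X, x ≠ y → ∃ γ : unitInterval → X, IsArc γ ∧ γ 0 = x ∧ γ 1 = y
  unicoherent : ∀ K M : Set X, IsClosed K → IsConnected K → IsClosed M → IsConnected M →
    IsPreconnected (K ∩ M)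
  ramification : ∀ w : X, (∃ γ : Fin 3 → unitInterval → X, (∀ i, IsArc (γ i) ∧ γ i 0 = w) ∧
    ∀ i j, i ≠ j → range (γ i) ∩ range (γ j) = {w}) ↔ w = t
  smooth : ∀ (x : ℕ → X) (y : X) (S : ℕ → Set X) (T : Set X), Tendsto x atTop (𝓝 y) →
    (∀ n, IsSeg t (x n) (S n)) → IsSeg t y T →
    Tendsto (fun n => Metric.hausdorffDist (S n) T) atTop (𝓝 0)

/-- Endpoint-homogeneity. -/
def EndHomog (X : Type) [TopologicalSpace X] : Prop :=
  ∀ e ∈ Ends X, ∀ e' ∈ Ends X, ∃ h : X ≃ₜ X, h e = e'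

/-- The fan `X` with top `t` is `A`-endpoint-generated. -/
def EPG (X : Type) [TopologicalSpace X] (t : X) (A : Set unitInterval) : Prop :=
  ∀ e ∈ Ends X, ∃ φ : unitInterval → X, IsArc φ ∧ φ 0 = t ∧ φ 1 = e ∧
    φ '' A = range φ ∩ closure (Ends X \ range φ)

end Pool.Agent.H.MP_56c207_gt
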