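import Pool.Agent.H.MP_56c207_gt.Hom

open Set Topology Filter

namespace Pool.Agent.H.MP_56c207_gt
open Pool.Agent.H.MP_211c6f_gt

variable {T : Set (List ℕ)}

lemma acc {U : Set ℝ} (hU : U.Finite) (hU' : U ⊆ Icc 0 1) {A : Set (Phi T)}
    (hA : ∀ y ∈ A, ∃ s ∈ T, ∃ u ∈ U, P s u = y.1) {x : Phi T} (hx : x ∈ Der A) {s : List ℕ}
    {u : ℝ} (hu : u ≠ 0) (h : x.1 = P s u) :
    ∃ (w : ℕ → List ℕ) (v : ℕ → ℝ), Esc w ∧ (∀ᶠ n in atTop, w n ≠ []) ∧
      (∀ n, s ++ w n ∈ T ∧ v n ∈ U) ∧ Tendsto (fun n => Hh (w n) (v n)) atTop (𝓝 u) := by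
  obtain ⟨y, h1, h2⟩ := mem_closure_iff_seq_limit.1 hx
  choose s' hs' v hv h3 using fun n => hA _ (h1 n).1
  obtain ⟨φ, h4, h5⟩ := conv s' fun n => hU' (hv n)
  have h6 : Tendsto (fun n => P (s' (φ n)) (v (φ n))) atTop (𝓝 (P s u)) := by
    simp only [h3, ← h]
    exact (tendsto_subtype_rng.1 h2).comp h4.tendsto_atTop
  rcases h5 with h5 | ⟨s0, w, u0, h5, h7, h8, h9⟩
  · exact absurd (P_inj ((tendsto_nhds_unique h6 (P_tend0 h5)).trans (P_zero s).symm)).1 hu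
  · have h10 := h6
    simp only [h7] at h10
    obtain ⟨rfl, h11⟩ := P_inj (tendsto_nhds_unique h10 (P_tend h8 s0 h9))
    obtain rfl := h11.resolve_left hu
    refine ⟨w, v ∘ φ, h8, ?_, fun n => ⟨h7 n ▸ hs' _, hv _⟩, h9⟩
    by_contra h12
    have h13 : ∃ᶠ n in atTop, Hh (w n) (v (φ n)) ∈ U \ {u} := by
      refine (not_eventually.1 h12).mono fun n hn => ?_
      rw [not_not] at hn
      refine ⟨by rw [hn]; exact hv _, fun h14 => (h1 (φ n)).2 (Subtype.ext ?_)⟩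
      rw [hn] at h14
      rw [← h3, h7, hn, List.append_nil, h, show v (φ n) = u from h14]
    exact ((hU.subset sdiff_subset).isClosed.mem_of_frequently_of_tendsto h13 h9).2 rfl

lemma lim_acc {A : Set (Phi T)} {s : List ℕ} {w : ℕ → List ℕ} {v : ℕ → ℝ} (h1 : Esc w)
    (h2 : ∀ n, w n ≠ [] ∧ 0 < v n ∧ ∃ y ∈ A, y.1 = P (s ++ w n) (v n)) {c : ℝ}
    (h3 : Tendsto (fun n => Hh (w n) (v n)) atTop (𝓝 c)) {x : Phi T} (hx : x.1 = P s c) :
    x ∈ closure (A \ {y | ∃ u, y.1 = P s u}) := by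
  choose h4 h5 y h6 h7 using h2
  refine mem_closure_of_tendsto (f := y) (b := atTop) ?_ (Eventually.of_forall fun n => ⟨h6 n, ?_⟩)
  · rw [tendsto_subtype_rng, hx]
    simp only [h7]
    exact P_tend h1 s h3
  · rintro ⟨u, hu⟩
    rcases (P_inj ((h7 n).symm.trans hu)).2 with h8 | h8
    · exact (h5 n).ne' h8
    · exact h4 n (List.append_right_eq_self.1 h8)

lemma lim_der {A : Set (Phi T)} {s : List ℕ} {c : ℝ} {x : Phi T} (hx : x.1 = P s c)
    (h : x ∈ closure (A \ {y | ∃ u, y.1 = P s u})) : x ∈ Der A :=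
  closure_mono (sdiff_subset_sdiff_right (by rintro _ rfl; exact ⟨c, hx⟩)) h

lemma H_one (w : List ℕ) : Hh w 1 = 1 ∨ Hh w 1 = 2 / 3 ∨ Hh w 1 ≤ 1 / 3 := by
  induction w with
  | nil => exact Or.inl rfl
  | cons a w ih =>
    right
    have h0 := H_nonneg w zero_le_one
    have h1 := ee_le a
    have h2 := ee_pos a
    rw [H_cons]
    rcases ih with h | h | h
    · rw [h]
      by_cases ha : a % 3 = 1
      · exact Or.inr (ps_one' ha).le
      · exact Or.inl (ps_one ha)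
    · rw [h]
      by_cases ha : a % 3 = 2
      · exact Or.inr (ps_two ha).le
      · rw [ps_small' ha (by norm_num) le_rfl]
        exact Or.inr (by linarith)
    · rw [ps_small a h0 h]
      exact Or.inr (by nlinarith)

lemma H_one' (a : ℕ) (w : List ℕ) :
    Hh (a :: w) 1 = 2 / 3 ∨ Hh (a :: w) 1 = 1 / 3 ∨ Hh (a :: w) 1 ≤ ee a := by
  have h0 := H_nonneg w zero_le_one
  have h2 := ee_pos a
  rw [H_cons]
  rcases H_one w with h | h | h
  · rw [h]
    by_cases ha : a % 3 = 1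
    · exact Or.inr (Or.inl (ps_one' ha))
    · exact Or.inl (ps_one ha)
  · rw [h]
    by_cases ha : a % 3 = 2
    · exact Or.inr (Or.inl (ps_two ha))
    · rw [ps_small' ha (by norm_num) le_rfl]
      exact Or.inr (Or.inr (by linarith))
  · rw [ps_small a h0 h]
    exact Or.inr (Or.inr (by nlinarith))

lemma der_ends {A : Set (Phi T)} (hA : ∀ y ∈ A, ∃ s ∈ T, P s 1 = y.1) {x : Phi T}
    (hx : x ∈ Der A) {s : List ℕ} {u : ℝ} (hu : 0 ≤ u) (h : x.1 = P s u) :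
    u ∈ ({0, 1 / 3, 2 / 3} : Set ℝ) := by
  by_contra hn
  simp only [mem_insert_iff, mem_singleton_iff, not_or] at hn
  obtain ⟨w, v, h1, h2, h3, h4⟩ := acc (finite_singleton 1) (by simp)
    (fun y hy => by simpa using hA y hy) hx hn.1 h
  have h5 : ∀ N, u ≤ ee N := by
    intro N
    have h6 : IsClosed ({2 / 3} ∪ ({1 / 3} ∪ Iic (ee N)) : Set ℝ) :=
      isClosed_singleton.union (isClosed_singleton.union isClosed_Iic)
    have h7 := h6.mem_of_tendsto h4 (by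
      filter_upwards [h1 N, h2] with n h7 h8
      obtain ⟨a, w', h9⟩ := List.exists_cons_of_ne_nil h8
      rw [h9, show v n = 1 from (h3 n).2]
      rcases H_one' a w' with h10 | h10 | h10
      · exact Or.inl h10
      · exact Or.inr (Or.inl h10)
      · exact Or.inr (Or.inr (h10.trans (ee_anti (h7 a w' h9)))))
    exact (h7.resolve_left hn.2.2).resolve_left hn.2.1
  exact hn.1 (le_antisymm (ge_of_tendsto' ee_tend h5) hu)

lemma der2 {A : Set (Phi T)} (hA : ∀ y ∈ A, ∃ s ∈ T, P s 1 = y.1) {x : Phi T}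
    (hx : x ∈ Der (Der A)) {s : List ℕ} (hs : ∀ a w, s ++ a :: w ∈ T → a % 3 ≠ 2) {u : ℝ}
    (hu : 0 ≤ u) (h : x.1 = P s u) : u = 0 := by
  by_contra hn
  obtain ⟨w, v, h1, h2, h3, h4⟩ := acc (U := {0, 1 / 3, 2 / 3}) (toFinite _)
    (by rintro _ (rfl | rfl | rfl) <;> norm_num)
    (fun y hy => by
      obtain ⟨s, hs, u, hu, h⟩ := y.2
      exact ⟨s, hs, u, der_ends hA hy hu.1 h.symm, h⟩) hx hn h
  have h5 : ∀ N, u ≤ ee N := by
    intro N
    refine le_of_tendsto h4 ?_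
    filter_upwards [h1 N, h2] with n h7 h8
    obtain ⟨a, w', h9⟩ := List.exists_cons_of_ne_nil h8
    have h10 : v n ∈ Icc (0 : ℝ) (2 / 3) := by
      rcases (h3 n).2 with h | h | h <;> rw [h] <;> norm_num
    have h11 : Hh w' (v n) ≤ 2 / 3 := by
      rcases w' with _ | ⟨b, w'⟩
      · exact h10.2
      · have h12 := H_mem w' (u := v n) ⟨h10.1, by linarith [h10.2]⟩
        have := ps_le b h12
        rw [H_cons]
        linarith [h12.2]
    rw [h9, H_cons, ps_small' (hs a w' (h9 ▸ (h3 n).1)) (H_nonneg _ h10.1) h11]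
    have := ee_anti (h7 a w' h9)
    have := ee_pos a
    nlinarith
  exact hn (le_antisymm (ge_of_tendsto' ee_tend h5) hu)

def Rich (T : Set (List ℕ)) : Prop := ∀ s ∈ T, ∀ c ∈ ({0, 1 / 3, 2 / 3} : Set ℝ),
  ∃ w : ℕ → List ℕ, Esc w ∧ (∀ n, w n ≠ [] ∧ s ++ w n ∈ T) ∧
    Tendsto (fun n => Hh (w n) 1) atTop (𝓝 c)

def AA : Set unitInterval := {u | u.1 = 0 ∨ u.1 = 1 / 3 ∨ u.1 = 2 / 3}

lemma Rich.ends (hT : Tree T) (hR : Rich T) (e : Phi T) :
    e ∈ Ends (Phi T) ↔ ∃ s ∈ T, P s 1 = e.1 := by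
  obtain ⟨w, -, h, -⟩ := hR [] hT.nil 0 (by simp)
  exact mem_ends hT hT.nil (h 0).2 (by simpa using (h 0).1) e

lemma Rich.cl (hT : Tree T) (hR : Rich T) {s : List ℕ} (hs : s ∈ T) {c : ℝ}
    (hc : c ∈ ({0, 1 / 3, 2 / 3} : Set ℝ)) {x : Phi T} (hx : x.1 = P s c) :
    x ∈ closure (Ends (Phi T) \ {y | ∃ u, y.1 = P s u}) := by
  obtain ⟨w, h1, h2, h3⟩ := hR s hs c hc
  exact lim_acc (v := fun _ => 1) h1 (fun n => ⟨(h2 n).1, one_pos,
    ⟨_, _, (h2 n).2, 1, by simp, rfl⟩, (hR.ends hT _).2 ⟨_, (h2 n).2, rfl⟩, rfl⟩) h3 hx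

lemma Rich.epg (hT : Tree T) (hR : Rich T) : EPG (Phi T) (top (cone hT)) AA := by
  intro e he
  obtain ⟨s, hs, h⟩ := (hR.ends hT e).1 he
  let φ : unitInterval → Phi T := fun u => ⟨P s u.1, s, hs, u.1, u.2, rfl⟩
  refine ⟨φ, ⟨Continuous.subtype_mk ((P_cont s).comp continuous_subtype_val) _,
    fun u v huv => Subtype.ext (P_inj (congrArg Subtype.val huv)).1⟩, Subtype.ext (P_zero s),
    Subtype.ext h, subset_antisymm ?_ ?_⟩
  · rintro _ ⟨u, hu, rfl⟩
    refine ⟨⟨u, rfl⟩, closure_mono (sdiff_subset_sdiff_right ?_) (hR.cl hT hs hu rfl)⟩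
    rintro _ ⟨v, rfl⟩
    exact ⟨v, rfl⟩
  · rintro _ ⟨⟨u, rfl⟩, hu⟩
    exact ⟨u, der_ends (fun y hy => (hR.ends hT y).1 hy)
      (closure_mono (sdiff_subset_sdiff_right (by rintro _ rfl; exact ⟨u, rfl⟩)) hu) u.2.1 rfl, rfl⟩

lemma esc_cons (d : ℕ) (t : List ℕ) : Esc fun n => (3 * n + d) :: t := fun N => by
  filter_upwards [eventually_ge_atTop N] with n hn a w h
  have := (List.cons.inj h).1
  omega

lemma ee_tend' (d : ℕ) (c : ℝ) : Tendsto (fun n => ee (3 * n + d) * c) atTop (𝓝 0) := by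
  simpa using (ee_tend.comp (tendsto_atTop_mono (f := id) (fun n => by simp only [id]; omega)
    tendsto_id : Tendsto (fun n : ℕ => 3 * n + d) atTop atTop)).mul_const c

lemma rich_of (h : ∀ s ∈ T, ∀ w ∈ TA {a | a % 3 ≠ 2}, s ++ w ∈ T) : Rich T := by
  rintro s hs _ (rfl | rfl | rfl)
  · refine ⟨_, esc_cons 0 [0], fun n => ⟨by simp, h s hs _ (by simp [TA])⟩,
      (ee_tend' 0 (2 / 3)).congr fun n => ?_⟩
    rw [H_cons, H_cons, H_nil, ps_one (by norm_num), ps_small' (by omega) (by norm_num) le_rfl]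
  · refine ⟨_, esc_cons 1 [], fun n => ⟨by simp, h s hs _ (by simp [TA])⟩,
      tendsto_const_nhds.congr fun n => ?_⟩
    rw [H_cons, H_nil, ps_one' (by omega)]
  · refine ⟨_, esc_cons 0 [], fun n => ⟨by simp, h s hs _ (by simp [TA])⟩,
      tendsto_const_nhds.congr fun n => ?_⟩
    rw [H_cons, H_nil, ps_one (by omega)]

lemma TA_append {A : Set ℕ} {s w : List ℕ} (hs : s ∈ TA A) (hw : w ∈ TA A) : s ++ w ∈ TA A :=
  fun a ha => (List.mem_append.1 ha).elim (hs a) (hw a)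

lemma richF : Rich (TA {a | a % 3 ≠ 2}) := rich_of fun _ hs _ hw => TA_append hs hw

lemma richG : Rich (TA {a | a % 3 = 2}) := by
  rintro s hs _ (rfl | rfl | rfl)
  · refine ⟨_, esc_cons 2 [2, 2], fun n => ⟨by simp, TA_append hs (by simp [TA])⟩,
      (ee_tend' 2 (1 / 3)).congr fun n => ?_⟩
    rw [H_cons, H_cons, H_cons, H_nil, ps_one (by norm_num), ps_two (by norm_num),
      ps_small _ (by norm_num) le_rfl]
  · refine ⟨_, esc_cons 2 [2], fun n => ⟨by simp, TA_append hs (by simp [TA])⟩,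
      tendsto_const_nhds.congr fun n => ?_⟩
    rw [H_cons, H_cons, H_nil, ps_one (by norm_num), ps_two (by omega)]
  · refine ⟨_, esc_cons 2 [], fun n => ⟨by simp, TA_append hs (by simp [TA])⟩,
      tendsto_const_nhds.congr fun n => ?_⟩
    rw [H_cons, H_nil, ps_one (by omega)]

lemma Rich.der2 (hT : Tree T) (hR : Rich T) {s : List ℕ} (hs : ∀ n, s ++ [3 * n + 2] ∈ T)
    {x : Phi T} (hx : x.1 = P s (1 / 3)) : x ∈ Der (Der (Ends (Phi T))) := by
  refine lim_der hx (lim_acc (v := fun _ => 2 / 3) (esc_cons 2 []) (fun n => ⟨by simp,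
    by norm_num, ⟨_, _, hs n, 2 / 3, by norm_num, rfl⟩,
      lim_der rfl (hR.cl hT (hs n) (by simp) rfl), rfl⟩) (tendsto_const_nhds.congr fun n => ?_) hx)
  rw [H_cons, H_nil, ps_two (by omega)]

lemma fan_of {d : ℕ} (h : ∀ n, [3 * n + d] ∈ T) :
    ∃ p : Fin 3 → Phi T, ∀ i j, i ≠ j → NP (p i).1 (p j).1 :=
  ⟨fun i => ⟨P [3 * i.1 + d] 1, _, h _, 1, by simp, rfl⟩, fun i j hij => P_NP fun h1 =>
    hij (Fin.ext (by have := (List.cons.inj h1).1; omega))⟩

theorem not_homeo (e : Phi (TA {a | a % 3 = 2}) ≃ₜ Phi (TA {a | a % 3 ≠ 2})) : False := by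
  have key : ∀ s (hs : s ∈ TA {a | a % 3 = 2}),
      (e ⟨P s (1 / 3), s, hs, 1 / 3, by norm_num, rfl⟩).1 = 0 := by
    intro s hs
    have h1 := der_map e (der_map e (ends_map e)) (richG.der2 (TA_tree _) (s := s)
      (fun n => TA_append hs (by simp [TA])) (x := ⟨P s (1 / 3), s, hs, 1 / 3, by norm_num, rfl⟩)
      rfl)
    obtain ⟨s', hs', u, hu, h2⟩ := (e ⟨P s (1 / 3), s, hs, 1 / 3, by norm_num, rfl⟩).2
    rw [← h2, der2 (fun y hy => (richF.ends (TA_tree _) y).1 hy) h1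
      (fun a w h => h a (by simp)) hu.1 h2.symm, P_zero]
  have h1 := e.injective (Subtype.ext ((key [] (by simp [TA])).trans
    (key [2] (by simp [TA])).symm))
  simpa using (P_inj (congrArg Subtype.val h1)).2

def TM : Set (List ℕ) := {s | ∀ a ∈ s.tail, a % 3 ≠ 2}

lemma TM_tree : Tree TM := by
  refine ⟨by simp [TM], fun s w h a ha => h a ?_⟩
  rcases s with _ | ⟨b, s⟩
  · simp at ha
  · exact List.mem_append_left _ ha

lemma richM : Rich TM := rich_of fun s hs w hw a ha => by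
  rcases s with _ | ⟨b, s⟩
  · exact hw a (List.mem_of_mem_tail ha)
  · exact (List.mem_append.1 ha).elim (hs a) (hw a)

theorem not_homog : ¬ EndHomog (Phi TM) := by
  intro h
  have m0 : [0] ∈ TM := by simp [TM]
  let x : Phi TM := ⟨P [] 1, [], TM_tree.nil, 1, by simp, rfl⟩
  let y : Phi TM := ⟨P [0] 1, [0], m0, 1, by simp, rfl⟩
  let z : Phi TM := ⟨P [] (1 / 3), [], TM_tree.nil, 1 / 3, by norm_num, rfl⟩
  obtain ⟨e, he⟩ := h x ((richM.ends TM_tree _).2 ⟨_, TM_tree.nil, rfl⟩) y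
    ((richM.ends TM_tree _).2 ⟨_, m0, rfl⟩)
  obtain ⟨p, hp⟩ := fan_of (T := TM) (d := 0) fun n => by simp [TM]
  have h1 := top_map (cone TM_tree) p hp e
  have h2 := der_map e (der_map e (ends_map e)) (richM.der2 TM_tree (s := [])
    (fun n => by simp [TM]) (x := z) rfl)
  let φ : unitInterval → Phi TM := fun u => ⟨P [] u.1, [], TM_tree.nil, u.1, u.2, rfl⟩
  have h3 := arcX (cone TM_tree) (γ := e ∘ φ)
    (e.continuous.comp (Continuous.subtype_mk ((P_cont _).comp continuous_subtype_val) _))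
    (e.injective.comp fun u v huv => Subtype.ext (P_inj (congrArg Subtype.val huv)).1)
    ((congrArg e (Subtype.ext (P_zero _))).trans h1)
  obtain ⟨r, hr⟩ := h3.subset ⟨⟨1 / 3, by norm_num⟩, rfl⟩
  have h4 : (e z).1 = (r.1 * Hh [0] 1) • dir [0] := by
    have h5 : (e ∘ φ) 1 = y := he
    rw [h5] at hr
    rw [← smul_smul]
    exact (congrArg Subtype.val hr).symm
  obtain ⟨s', hs', u, hu, h5⟩ := (e z).2
  have h6 : (e z).1 = 0 := by
    obtain ⟨h7, h8 | rfl⟩ := dir_inj (h5.trans h4)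
    · rw [← h5, P, h8, zero_smul]
    · rw [← h5, der2 (fun y hy => (richM.ends TM_tree y).1 hy) h2
        (fun a w h => h a (by simp)) hu.1 h5.symm, P_zero]
  have h7 : z = top (cone TM_tree) := e.injective ((Subtype.ext h6).trans h1.symm)
  have h8 := (P_inj ((congrArg Subtype.val h7).trans (P_zero []).symm)).1
  norm_num at h8

end Pool.Agent.H.MP_56c207_gt
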