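import Pool.Agent.H.MP_211c6f_gt.Cone
import Pool.Agent.H.MP_56c207_gt.Defs

open Set Topology Filter

namespace Pool.Agent.H.MP_56c207_gt
open Pool.Agent.H.MP_211c6f_gt

variable {ι : Type} {Φ : Set (V ι)}

lemma arc_seg (h : Cone Φ) {x y : Φ} (hxy : x ≠ y) {s : ℝ} (hs : s ∈ Icc (0 : ℝ) 1)
    (h1 : x.1 = s • y.1) : ∃ γ : unitInterval → Φ, IsArc γ ∧ γ 0 = x ∧ γ 1 = y := by
  have hy : y.1 ≠ 0 := fun h2 => hxy (Subtype.ext (by rw [h1, h2, smul_zero]))
  have hs1 : s ≠ 1 := fun h2 => hxy (Subtype.ext (by rw [h1, h2, one_smul]))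
  have hm : ∀ t : unitInterval, ((1 - t.1) * s + t.1) • y.1 ∈ Φ := fun t =>
    h.star _ y.2 _ ⟨by nlinarith [t.2.1, t.2.2, hs.1], by nlinarith [t.2.1, t.2.2, hs.2]⟩
  refine ⟨fun t => ⟨_, hm t⟩, ⟨Continuous.subtype_mk (by fun_prop) _, fun a b hab => ?_⟩,
    Subtype.ext (by simp [h1]), Subtype.ext (by simp)⟩
  have h2 := smul_left_injective ℝ hy (congrArg Subtype.val hab)
  have h3 : (a.1 - b.1) * (1 - s) = 0 := by linarith
  exact Subtype.ext (sub_eq_zero.1 ((mul_eq_zero.1 h3).resolve_right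
    fun h4 => hs1 (sub_eq_zero.1 h4).symm))

lemma arc_np (h : Cone Φ) {p q : Φ} (hpq : NP p.1 q.1) :
    ∃ γ : unitInterval → Φ, IsArc γ ∧ γ 0 = p ∧ γ 1 = q := by
  have hm : ∀ t : unitInterval, max (1 - 2 * t.1) 0 • p.1 + max (2 * t.1 - 1) 0 • q.1 ∈ Φ := by
    intro t
    rcases le_total t.1 (1 / 2) with h1 | h1
    · rw [max_eq_right (by linarith : 2 * t.1 - 1 ≤ 0), zero_smul, add_zero]
      exact h.star _ p.2 _ ⟨le_max_right _ _, max_le (by linarith [t.2.1]) zero_le_one⟩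
    · rw [max_eq_right (by linarith : 1 - 2 * t.1 ≤ 0), zero_smul, zero_add]
      exact h.star _ q.2 _ ⟨le_max_right _ _, max_le (by linarith [t.2.2]) zero_le_one⟩
  refine ⟨fun t => ⟨_, hm t⟩, ⟨Continuous.subtype_mk (by fun_prop) _, ?_⟩,
    Subtype.ext (by norm_num), Subtype.ext (by norm_num)⟩
  intro s t hst
  have h1 : max (1 - 2 * s.1) 0 • p.1 + max (2 * s.1 - 1) 0 • q.1 =
    max (1 - 2 * t.1) 0 • p.1 + max (2 * t.1 - 1) 0 • q.1 := congrArg Subtype.val hst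
  have h2 := hpq (max (1 - 2 * s.1) 0 - max (1 - 2 * t.1) 0)
    (max (2 * t.1 - 1) 0 - max (2 * s.1 - 1) 0) (by
      rw [sub_smul, sub_smul, sub_eq_sub_iff_add_eq_add, h1, add_comm])
  have h3 := max_zero_sub_max_neg_zero_eq_self (1 - 2 * s.1)
  have h4 := max_zero_sub_max_neg_zero_eq_self (1 - 2 * t.1)
  rw [neg_sub] at h3 h4
  exact Subtype.ext (by linarith [h2.1, h2.2])

lemma arcwiseX (h : Cone Φ) (x y : Φ) (hxy : x ≠ y) :
    ∃ γ : unitInterval → Φ, IsArc γ ∧ γ 0 = x ∧ γ 1 = y := by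
  by_cases h1 : ∃ s ∈ Icc (0 : ℝ) 1, x.1 = s • y.1
  · obtain ⟨s, hs, h1⟩ := h1
    exact arc_seg h hxy hs h1
  by_cases h2 : ∃ s ∈ Icc (0 : ℝ) 1, y.1 = s • x.1
  · obtain ⟨s, hs, h2⟩ := h2
    obtain ⟨γ, h3, h4, h5⟩ := arc_seg h hxy.symm hs h2
    exact ⟨γ ∘ unitInterval.symm, ⟨h3.1.comp unitInterval.continuous_symm,
      h3.2.comp unitInterval.symm_bijective.1⟩, by simpa using h5, by simpa using h4⟩
  refine arc_np h fun s t hst => ?_
  have hx : x.1 ≠ 0 := fun h3 => h1 ⟨0, by simp, by simp [h3]⟩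
  have hy : y.1 ≠ 0 := fun h3 => h2 ⟨0, by simp, by simp [h3]⟩
  have px := h.pos x.2 hx
  have py := h.pos y.2 hy
  have h3 : s * x.1.1 = t * y.1.1 := congrArg Prod.fst hst
  by_cases hs : s = 0
  · exact ⟨hs, (mul_eq_zero.1 (by rw [← h3, hs, zero_mul])).resolve_right py.ne'⟩
  exfalso
  have ht : t ≠ 0 := fun h4 => hs ((mul_eq_zero.1 (by rw [h3, h4, zero_mul])).resolve_right px.ne')
  have h4 : t / s = x.1.1 / y.1.1 := by field_simp; linarith
  have h5 : s / t = y.1.1 / x.1.1 := by field_simp; linarith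
  rcases le_total x.1.1 y.1.1 with h6 | h6
  · refine h1 ⟨t / s, by rw [h4]; exact ⟨by positivity, (div_le_one py).2 h6⟩, ?_⟩
    rw [div_eq_inv_mul, ← smul_smul, ← hst, smul_smul, inv_mul_cancel₀ hs, one_smul]
  · refine h2 ⟨s / t, by rw [h5]; exact ⟨by positivity, (div_le_one px).2 h6⟩, ?_⟩
    rw [div_eq_inv_mul, ← smul_smul, hst, smul_smul, inv_mul_cancel₀ ht, one_smul]

lemma smoothFan [Countable ι] (h : Cone Φ) (p : Fin 3 → Φ)
    (hp : ∀ i j, i ≠ j → NP (p i).1 (p j).1) :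
    @SmoothFan Φ (TopologicalSpace.metrizableSpaceMetric Φ) (top h) := by
  refine @SmoothFan.mk _ (TopologicalSpace.metrizableSpaceMetric Φ) _
    (isCompact_iff_compactSpace.1 h.cpt) (arcwiseX h) (huX h) (fun w => ?_) ?_
  · simpa only [IsArc, and_assoc] using ramX h p hp w
  · intro x y S T hx hS hT
    refine @smoothX _ _ h (TopologicalSpace.metrizableSpaceMetric Φ) rfl x y S T hx ?_ ?_
    · simpa only [IsSeg, IsArc, and_assoc] using hS
    · simpa only [IsSeg, IsArc, and_assoc] using hT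

lemma ends_iff (h : Cone Φ) {p q : Φ} (hpq : NP p.1 q.1) (e : Φ) :
    e ∈ Ends Φ ↔ e.1 ≠ 0 ∧ ∀ s : ℝ, 1 < s → s • e.1 ∉ Φ := by
  rw [← endX h hpq]
  simp only [Ends, IsArc, mem_ofPred_eq, and_imp]

def Der {X : Type} [TopologicalSpace X] (A : Set X) : Set X := {x | x ∈ closure (A \ {x})}

section
variable {X Y : Type} [TopologicalSpace X] [TopologicalSpace Y] (e : X ≃ₜ Y)

lemma ends_map : MapsTo e (Ends X) (Ends Y) := by
  rintro x hx γ h1 ⟨t, ht⟩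
  have := hx (e.symm ∘ γ) ⟨e.symm.continuous.comp h1.1, e.symm.injective.comp h1.2⟩
    ⟨t, by simp [ht]⟩
  rcases this with h | h
  · exact Or.inl (by simp [h])
  · exact Or.inr (by simp [h])

lemma der_map {A : Set X} {B : Set Y} (h : MapsTo e A B) : MapsTo e (Der A) (Der B) :=
  fun _ hx => map_mem_closure e.continuous hx fun _ hy => ⟨h hy.1, fun h1 => hy.2 (e.injective h1)⟩

end

lemma top_map (h : Cone Φ) (p : Fin 3 → Φ) (hp : ∀ i j, i ≠ j → NP (p i).1 (p j).1)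
    (e : Φ ≃ₜ Φ) : e (top h) = top h := by
  obtain ⟨γ, h1, h2⟩ := (ramX h p hp (top h)).2 rfl
  refine (ramX h p hp _).1 ⟨fun i => e ∘ γ i, fun i => ⟨e.continuous.comp (h1 i).1,
    e.injective.comp (h1 i).2.1, congrArg e (h1 i).2.2⟩, fun i j hij => ?_⟩
  rw [range_comp, range_comp, ← image_inter e.injective, h2 i j hij, image_singleton]

end Pool.Agent.H.MP_56c207_gt
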