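import Pool.Agent.H.MP_56c207_gt.Tree
import Pool.Agent.H.MP_56c207_gt.Fan

open Set Topology Filter

namespace Pool.Agent.H.MP_56c207_gt
open Pool.Agent.H.MP_211c6f_gt

variable {T : Set (List ℕ)}

structure Adm (T : Set (List ℕ)) (σ : List ℕ → List ℕ) : Prop where
  inv : Function.Involutive σ
  tail : ∀ s, ∃ N, ∀ a w, N ≤ a → σ (s ++ a :: w) = σ s ++ a :: w
  bd : ∃ C, ∀ s, ∀ u ∈ Icc (0 : ℝ) 1, Hh (σ s) u ≤ C * Hh s u
  mem : ∀ s ∈ T, σ s ∈ T

lemma Adm.exists_map {σ : List ℕ → List ℕ} (h : Adm T σ) :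
    ∃ f : Phi T → Phi T, Continuous f ∧ ∀ x s u, x.1 = P s u → (f x).1 = P (σ s) u := by
  have hx : ∀ x : Phi T, ∃ s ∈ T, ∃ u ∈ Icc (0 : ℝ) 1, P s u = x.1 := fun x => x.2
  choose s hs u hu hx using hx
  let f : Phi T → Phi T := fun x => ⟨P (σ (s x)) (u x), _, h.mem _ (hs x), _, hu x, rfl⟩
  have key : ∀ x s u, x.1 = P s u → (f x).1 = P (σ s) u := by
    intro x s' u' h1
    obtain ⟨h2, h3 | h3⟩ := P_inj ((hx x).trans h1)
    · show P _ _ = _
      rw [← h2, h3, P_zero, P_zero]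
    · show P _ _ = _
      rw [h2, h3]
  refine ⟨f, continuous_iff_seqContinuous.2 fun x y hxy => ?_, key⟩
  refine tendsto_of_subseq_tendsto fun ns hns => ?_
  obtain ⟨φ, h1, h2⟩ := conv (fun n => s (x (ns n))) fun n => hu (x (ns n))
  refine ⟨φ, tendsto_subtype_rng.2 ?_⟩
  have h3 : Tendsto (fun n => P (s (x (ns (φ n)))) (u (x (ns (φ n))))) atTop (𝓝 y.1) := by
    simp only [hx]
    exact (tendsto_subtype_rng.1 hxy).comp (hns.comp h1.tendsto_atTop)
  rcases h2 with h2 | ⟨s0, w, u0, h2, h4, h5, h6⟩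
  · rw [key y [] 0 ((tendsto_nhds_unique h3 (P_tend0 h2)).trans (P_zero _).symm), P_zero]
    obtain ⟨C, hC⟩ := h.bd
    exact P_tend0 (squeeze_zero (fun n => H_nonneg _ (hu _).1) (fun n => hC _ _ (hu _))
      (by simpa using h2.const_mul C))
  · simp only [h4] at h3
    rw [key y s0 u0 (tendsto_nhds_unique h3 (P_tend h5 s0 h6))]
    obtain ⟨N, hN⟩ := h.tail s0
    refine (P_tend h5 (σ s0) h6).congr' ?_
    filter_upwards [h5 N] with n hn
    show _ = P _ _
    rw [h4]
    rcases h7 : w n with _ | ⟨a, w'⟩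
    · simp
    · rw [hN a w' (hn a w' h7)]

lemma Adm.exists_homeo {σ : List ℕ → List ℕ} (h : Adm T σ) :
    ∃ e : Phi T ≃ₜ Phi T, ∀ x s u, x.1 = P s u → (e x).1 = P (σ s) u := by
  obtain ⟨f, h1, h2⟩ := h.exists_map
  have h3 : Function.Involutive f := by
    rintro ⟨_, s, hs, u, hu, rfl⟩
    exact Subtype.ext (by rw [h2 _ _ _ (h2 _ s u rfl), h.inv])
  exact ⟨⟨h3.toPerm f, h1, h1⟩, h2⟩

def tau (a : ℕ) (s : List ℕ) : List ℕ :=
  if s.head? ≠ some a then a :: s else if s.tail.head? ≠ some a then s.tail else s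

def lift (b : ℕ) (σ : List ℕ → List ℕ) (s : List ℕ) : List ℕ :=
  if s.head? = some b then b :: σ s.tail else s

def TA (A : Set ℕ) : Set (List ℕ) := {s | ∀ a ∈ s, a ∈ A}

lemma TA_tree (A : Set ℕ) : Tree (TA A) :=
  ⟨by simp [TA], fun s w h a ha => h a (List.mem_append_left _ ha)⟩

lemma ps_le' (a : ℕ) {u : ℝ} (h : u ∈ Icc (0 : ℝ) 1) : ps a u ≤ u := by
  have := ps_le a h
  linarith [h.1]

lemma le_ps (a : ℕ) (u : ℝ) : u ≤ (a + 3) * ps a u := by
  have h1 := ps_ge a u
  have h2 := ee_mul a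
  have h3 : (0 : ℝ) ≤ a + 3 := by positivity
  calc u = (a + 3) * (ee a * u) := by rw [← mul_assoc, h2, one_mul]
    _ ≤ _ := mul_le_mul_of_nonneg_left h1 h3

lemma tau_adm {A : Set ℕ} {a : ℕ} (ha : a ∈ A) : Adm (TA A) (tau a) where
  inv := by
    intro s
    rcases s with _ | ⟨b, _ | ⟨c, s⟩⟩
    · simp [tau]
    · by_cases h : b = a <;> simp [tau, h]
    · by_cases h : b = a <;> by_cases h' : c = a <;> simp [tau, h, h']
  tail := by
    intro s
    refine ⟨a + 1, fun d w hd => ?_⟩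
    have : d ≠ a := by omega
    rcases s with _ | ⟨b, _ | ⟨c, s⟩⟩
    · simp [tau, this]
    · by_cases h : b = a <;> simp [tau, h, this]
    · by_cases h : b = a <;> by_cases h' : c = a <;> simp [tau, h, h']
  bd := by
    refine ⟨a + 3, fun s u hu => ?_⟩
    have h1 := H_mem s hu
    have h2 : Hh s u ≤ (a + 3) * Hh s u :=
      le_mul_of_one_le_left h1.1 (by have := Nat.cast_nonneg (α := ℝ) a; linarith)
    unfold tau
    split_ifs with h3 h4
    · exact (ps_le' a h1).trans h2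
    · rcases s with _ | ⟨b, s⟩
      · exact h2
      · obtain rfl : b = a := by simpa using h3
        exact le_ps _ _
    · exact h2
  mem := by
    intro s hs
    unfold tau
    split_ifs
    · intro b hb
      rcases List.mem_cons.1 hb with rfl | hb
      exacts [ha, hs b hb]
    · exact fun b hb => hs b (List.mem_of_mem_tail hb)
    · exact hs

lemma Adm.lift {A : Set ℕ} {σ : List ℕ → List ℕ} (h : Adm (TA A) σ) (b : ℕ) :
    Adm (TA A) (lift b σ) where
  inv := by
    intro s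
    rcases s with _ | ⟨c, s⟩
    · simp [MP_56c207_gt.lift]
    · by_cases h' : c = b <;> simp [MP_56c207_gt.lift, h', h.inv s]
  tail := by
    intro s
    rcases s with _ | ⟨c, s⟩
    · refine ⟨b + 1, fun d w hd => ?_⟩
      have : d ≠ b := by omega
      simp [MP_56c207_gt.lift, this]
    · obtain ⟨N, hN⟩ := h.tail s
      refine ⟨N, fun d w hd => ?_⟩
      by_cases h' : c = b <;> simp [MP_56c207_gt.lift, h', hN d w hd]
  bd := by
    obtain ⟨C, hC⟩ := h.bd
    refine ⟨max 1 C * (b + 3), fun s u hu => ?_⟩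
    have h1 := H_mem s hu
    have h0 : (1 : ℝ) ≤ b + 3 := by have := Nat.cast_nonneg (α := ℝ) b; linarith
    have h2 : Hh s u ≤ max 1 C * (b + 3) * Hh s u :=
      le_mul_of_one_le_left h1.1 (one_le_mul_of_one_le_of_one_le (le_max_left _ _) h0)
    unfold MP_56c207_gt.lift
    split_ifs with h3
    · rcases s with _ | ⟨c, s⟩
      · simp at h3
      · obtain rfl : c = b := by simpa using h3
        simp only [List.tail_cons, H_cons]
        calc _ ≤ Hh (σ s) u := ps_le' _ (H_mem _ hu)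
          _ ≤ C * Hh s u := hC s u hu
          _ ≤ max 1 C * Hh s u := mul_le_mul_of_nonneg_right (le_max_right _ _) (H_mem _ hu).1
          _ ≤ max 1 C * ((c + 3) * ps c (Hh s u)) :=
            mul_le_mul_of_nonneg_left (le_ps _ _) (by positivity)
          _ = _ := by ring
    · exact h2
  mem := by
    intro s hs
    unfold MP_56c207_gt.lift
    split_ifs with h3
    · rcases s with _ | ⟨c, s⟩
      · simp at h3
      · obtain rfl : c = b := by simpa using h3
        intro d hd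
        rcases List.mem_cons.1 hd with rfl | hd
        · exact hs _ List.mem_cons_self
        · exact h.mem s (fun e he => hs e (List.mem_cons_of_mem _ he)) d hd
    · exact hs

lemma exists_sw {A : Set ℕ} {a : ℕ} (ha : a ∈ A) (p : List ℕ) :
    ∃ σ, Adm (TA A) σ ∧ σ p = p ++ [a] := by
  induction p with
  | nil => exact ⟨_, tau_adm ha, by simp [tau]⟩
  | cons b p ih =>
    obtain ⟨σ, h1, h2⟩ := ih
    exact ⟨_, h1.lift b, by simp [lift, h2]⟩

lemma mem_ends (hT : Tree T) {s s' : List ℕ} (hs : s ∈ T) (hs' : s' ∈ T) (h : s ≠ s')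
    (e : Phi T) : e ∈ Ends (Phi T) ↔ ∃ s ∈ T, P s 1 = e.1 := by
  rw [ends_iff (cone hT) (p := ⟨P s 1, s, hs, 1, by simp, rfl⟩)
    (q := ⟨P s' 1, s', hs', 1, by simp, rfl⟩) (P_NP h), end_iff e.2]

lemma endHomog {A : Set ℕ} {a : ℕ} (ha : a ∈ A) : EndHomog (Phi (TA A)) := by
  have hE := mem_ends (TA_tree A) (TA_tree A).nil (s' := [a]) (by simpa [TA] using ha) (by simp)
  have key : ∀ s : List ℕ, s ∈ TA A → ∃ e : Phi (TA A) ≃ₜ Phi (TA A),
      ∀ x : Phi (TA A), x.1 = P [] 1 → (e x).1 = P s 1 := by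
    intro s
    induction s using List.reverseRecOn with
    | nil => exact fun _ => ⟨Homeomorph.refl _, fun x hx => hx⟩
    | append_singleton p b ih =>
      intro hs
      obtain ⟨e, he⟩ := ih ((TA_tree A).pre _ _ hs)
      obtain ⟨σ, h1, h2⟩ := exists_sw (hs b (by simp)) p
      obtain ⟨e', he'⟩ := h1.exists_homeo
      exact ⟨e.trans e', fun x hx => by rw [← h2]; exact he' _ _ _ (he x hx)⟩
  intro x hx y hy
  obtain ⟨s, hs, h1⟩ := (hE x).1 hx
  obtain ⟨s', hs', h2⟩ := (hE y).1 hy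
  obtain ⟨e, he⟩ := key s hs
  obtain ⟨e', he'⟩ := key s' hs'
  let z : Phi (TA A) := ⟨P [] 1, [], (TA_tree A).nil, 1, by simp, rfl⟩
  have h3 : e z = x := Subtype.ext ((he z rfl).trans h1)
  have h4 : e' z = y := Subtype.ext ((he' z rfl).trans h2)
  exact ⟨e.symm.trans e', by simp [← h3, h4]⟩

end Pool.Agent.H.MP_56c207_gt
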