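import Pool.Agent.H.MP_211c6f_gt.Cone

open Set Topology Filter

namespace Pool.Agent.H.MP_56c207_gt
open Pool.Agent.H.MP_211c6f_gt

noncomputable def ee (a : ℕ) : ℝ := 1 / (a + 3)
lemma ee_pos (a : ℕ) : 0 < ee a := by unfold ee; positivity
lemma ee_le (a : ℕ) : ee a ≤ 1 / 3 :=
  one_div_le_one_div_of_le (by norm_num) (by have := Nat.cast_nonneg (α := ℝ) a; linarith)
lemma ee_mul (a : ℕ) : ((a : ℝ) + 3) * ee a = 1 := by unfold ee; field_simp
lemma ee_anti {a b : ℕ} (h : a ≤ b) : ee b ≤ ee a :=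
  one_div_le_one_div_of_le (by positivity) (by have : (a : ℝ) ≤ b := Nat.cast_le.2 h; linarith)
lemma ee_tend : Tendsto ee atTop (𝓝 0) := by
  have := (tendsto_add_atTop_iff_nat 2).2 (tendsto_one_div_add_atTop_nhds_zero_nat (𝕜 := ℝ))
  refine this.congr fun n => ?_
  simp only [ee]
  push_cast
  ring

noncomputable def ps (a : ℕ) (u : ℝ) : ℝ :=
  max (if a % 3 = 0 then 2 * u - 4 / 3 else if a % 3 = 1 then u - 2 / 3 else u - 1 / 3) (ee a * u)

lemma ps_cont (a : ℕ) : Continuous (ps a) := by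
  unfold ps
  split_ifs <;> fun_prop

lemma ps_mono (a : ℕ) : StrictMono (ps a) := by
  intro u v h
  have := ee_pos a
  refine max_lt_max ?_ (by nlinarith)
  split_ifs <;> linarith

lemma ps_small (a : ℕ) {u : ℝ} (h0 : 0 ≤ u) (h : u ≤ 1 / 3) : ps a u = ee a * u := by
  have := mul_nonneg (ee_pos a).le h0
  refine max_eq_right ?_
  split_ifs <;> linarith

lemma ps_small' {a : ℕ} (ha : a % 3 ≠ 2) {u : ℝ} (h0 : 0 ≤ u) (h : u ≤ 2 / 3) :
    ps a u = ee a * u := by
  have := mul_nonneg (ee_pos a).le h0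
  refine max_eq_right ?_
  split_ifs
  · linarith
  · linarith
  · omega

lemma ps_zero (a : ℕ) : ps a 0 = 0 := by rw [ps_small a le_rfl (by norm_num), mul_zero]

lemma ps_le (a : ℕ) {u : ℝ} (h : u ∈ Icc (0 : ℝ) 1) : ps a u ≤ 2 / 3 * u := by
  have := ee_le a
  have h1 := h.1
  have h2 := h.2
  refine max_le ?_ (by nlinarith)
  split_ifs <;> linarith

lemma ps_ge (a : ℕ) (u : ℝ) : ee a * u ≤ ps a u := le_max_right _ _

lemma ps_one {a : ℕ} (ha : a % 3 ≠ 1) : ps a 1 = 2 / 3 := by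
  have := ee_le a
  unfold ps
  split_ifs <;> rw [max_eq_left (by linarith)] <;> norm_num

lemma ps_one' {a : ℕ} (ha : a % 3 = 1) : ps a 1 = 1 / 3 := by
  have := ee_le a
  unfold ps
  rw [if_neg (by omega), if_pos ha, max_eq_left (by linarith)]
  norm_num

lemma ps_two {a : ℕ} (ha : a % 3 = 2) : ps a (2 / 3) = 1 / 3 := by
  have := ee_le a
  unfold ps
  rw [if_neg (by omega), if_neg (by omega), max_eq_left (by linarith)]
  norm_num

noncomputable def Hh (s : List ℕ) (u : ℝ) : ℝ := s.foldr ps u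

@[simp] lemma H_nil (u : ℝ) : Hh [] u = u := rfl
@[simp] lemma H_cons (a : ℕ) (s : List ℕ) (u : ℝ) : Hh (a :: s) u = ps a (Hh s u) := rfl
lemma H_append (s w : List ℕ) (u : ℝ) : Hh (s ++ w) u = Hh s (Hh w u) := List.foldr_append

lemma H_cont (s : List ℕ) : Continuous (Hh s) := by
  induction s with
  | nil => exact continuous_id
  | cons a s ih => exact (ps_cont a).comp ih

lemma H_mono (s : List ℕ) : StrictMono (Hh s) := by
  induction s with
  | nil => exact strictMono_id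
  | cons a s ih => exact (ps_mono a).comp ih

lemma H_zero (s : List ℕ) : Hh s 0 = 0 := by
  induction s with
  | nil => rfl
  | cons a s ih => rw [H_cons, ih, ps_zero]

lemma H_nonneg (s : List ℕ) {u : ℝ} (h : 0 ≤ u) : 0 ≤ Hh s u :=
  H_zero s ▸ (H_mono s).monotone h
lemma H_pos (s : List ℕ) {u : ℝ} (h : 0 < u) : 0 < Hh s u := H_zero s ▸ H_mono s h
lemma H_eq_zero {s : List ℕ} {u : ℝ} (h : Hh s u = 0) : u = 0 :=
  (H_mono s).injective (h.trans (H_zero s).symm)

lemma H_mem (s : List ℕ) {u : ℝ} (h : u ∈ Icc (0 : ℝ) 1) : Hh s u ∈ Icc (0 : ℝ) 1 := by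
  refine ⟨H_nonneg s h.1, ?_⟩
  induction s with
  | nil => exact h.2
  | cons a s ih =>
    have := ps_le a ⟨H_nonneg s h.1, ih⟩
    rw [H_cons]
    linarith

lemma H_le (s : List ℕ) {u : ℝ} (h : u ∈ Icc (0 : ℝ) 1) : Hh s u ≤ (2 / 3) ^ s.length := by
  induction s with
  | nil => simpa using h.2
  | cons a s ih =>
    have := ps_le a (H_mem s h)
    rw [H_cons, List.length_cons, pow_succ]
    linarith

noncomputable def chi (s : List ℕ) : List ℕ → ℝ := fun w => if w <+: s then 1 else 0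
noncomputable def dir (s : List ℕ) : V (List ℕ) := (1, chi s)
noncomputable def P (s : List ℕ) (u : ℝ) : V (List ℕ) := Hh s u • dir s

lemma P_fst (s : List ℕ) (u : ℝ) : (P s u).1 = Hh s u := mul_one _
lemma P_zero (s : List ℕ) : P s 0 = 0 := by rw [P, H_zero, zero_smul]
lemma P_cont (s : List ℕ) : Continuous (P s) := (H_cont s).smul continuous_const

lemma dir_inj {r r' : ℝ} {s s' : List ℕ} (h : r • dir s = r' • dir s') :
    r = r' ∧ (r = 0 ∨ s = s') := by
  have h1 : r = r' := by simpa [dir] using congrArg Prod.fst h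
  subst h1
  refine ⟨rfl, or_iff_not_imp_left.2 fun h0 => ?_⟩
  have h2 : chi s = chi s' := congrArg Prod.snd (smul_right_injective _ h0 h)
  have h3 : s <+: s' := by
    by_contra h3
    simpa [chi, h3] using congrFun h2 s
  have h4 : s' <+: s := by
    by_contra h4
    simpa [chi, h4] using congrFun h2 s'
  exact h3.eq_of_length (le_antisymm h3.length_le h4.length_le)

lemma P_inj {s s' : List ℕ} {u u' : ℝ} (h : P s u = P s' u') : u = u' ∧ (u = 0 ∨ s = s') := by
  obtain ⟨h1, h2 | rfl⟩ := dir_inj h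
  · rw [H_eq_zero h2, H_eq_zero (h1.symm.trans h2)]
    simp
  · exact ⟨(H_mono s).injective h1, Or.inr rfl⟩

def Esc (w : ℕ → List ℕ) : Prop := ∀ N, ∀ᶠ n in atTop, ∀ a w', w n = a :: w' → N ≤ a

lemma chi_tend {w : ℕ → List ℕ} (h : Esc w) (s : List ℕ) :
    Tendsto (fun n => chi (s ++ w n)) atTop (𝓝 (chi s)) := by
  refine tendsto_pi_nhds.2 fun v => ?_
  by_cases hv : v <+: s
  · have : ∀ n, chi (s ++ w n) v = chi s v := fun n => by
      simp [chi, hv, hv.trans (List.prefix_append _ _)]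
    simp [this]
  · by_cases h2 : s <+: v
    · obtain ⟨v', rfl⟩ := h2
      rcases v' with _ | ⟨a, v'⟩
      · simp at hv
      · refine tendsto_const_nhds.congr' ?_
        filter_upwards [h (a + 1)] with n hn
        have : ¬ (s ++ a :: v' <+: s ++ w n) := by
          rw [List.prefix_append_right_inj]
          rintro ⟨t, ht⟩
          exact absurd (hn a _ ht.symm) (by omega)
        simp only [chi, if_neg hv, if_neg this]
    · have : ∀ n, chi (s ++ w n) v = chi s v := fun n => by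
        have : ¬ (v <+: s ++ w n) := fun h3 =>
          (List.prefix_or_prefix_of_prefix h3 (List.prefix_append _ _)).elim hv h2
        simp only [chi, if_neg hv, if_neg this]
      simp [this]

lemma P_tend {w : ℕ → List ℕ} (h : Esc w) (s : List ℕ) {u : ℕ → ℝ} {u0 : ℝ}
    (hu : Tendsto (fun n => Hh (w n) (u n)) atTop (𝓝 u0)) :
    Tendsto (fun n => P (s ++ w n) (u n)) atTop (𝓝 (P s u0)) := by
  simp only [P, H_append]
  exact (((H_cont s).tendsto _).comp hu).smul (tendsto_const_nhds.prodMk_nhds (chi_tend h s))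

lemma P_tend0 {s : ℕ → List ℕ} {u : ℕ → ℝ} (h : Tendsto (fun n => Hh (s n) (u n)) atTop (𝓝 0)) :
    Tendsto (fun n => P (s n) (u n)) atTop (𝓝 0) := by
  refine Tendsto.prodMk_nhds (by simpa [dir] using h) (tendsto_pi_nhds.2 fun v => ?_)
  refine squeeze_zero_norm (fun n => ?_) (tendsto_zero_iff_norm_tendsto_zero.1 h)
  simp only [dir, chi, Pi.smul_apply, smul_eq_mul]
  split_ifs <;> simp

lemma conv (s : ℕ → List ℕ) {u : ℕ → ℝ} (hu : ∀ n, u n ∈ Icc (0 : ℝ) 1) :
    ∃ φ : ℕ → ℕ, StrictMono φ ∧ (Tendsto (fun n => Hh (s (φ n)) (u (φ n))) atTop (𝓝 0) ∨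
      ∃ (s0 : List ℕ) (w : ℕ → List ℕ) (u0 : ℝ), u0 ∈ Icc (0 : ℝ) 1 ∧
        (∀ n, s (φ n) = s0 ++ w n) ∧ Esc w ∧
        Tendsto (fun n => Hh (w n) (u (φ n))) atTop (𝓝 u0)) := by
  by_cases h : ∀ p : List ℕ, (∃ᶠ n in atTop, p <+: s n) → ∃ a, ∃ᶠ n in atTop, p ++ [a] <+: s n
  · have h1 : ∀ k, ∃ p : List ℕ, p.length = k ∧ ∃ᶠ n in atTop, p <+: s n := by
      intro k
      induction k with
      | zero => exact ⟨[], rfl, Frequently.of_forall fun n => List.nil_prefix⟩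
      | succ k ih =>
        obtain ⟨p, h2, h3⟩ := ih
        obtain ⟨a, ha⟩ := h p h3
        exact ⟨p ++ [a], by simp [h2], ha⟩
    obtain ⟨φ, h2, h3⟩ := extraction_forall_of_frequently (P := fun k n => k ≤ (s n).length)
      fun k => by
        obtain ⟨p, h2, h3⟩ := h1 k
        exact h3.mono fun n hn => h2 ▸ hn.length_le
    refine ⟨φ, h2, Or.inl (squeeze_zero (fun n => H_nonneg _ (hu _).1) (fun n => ?_)
      (tendsto_pow_atTop_nhds_zero_of_lt_one (r := 2 / 3) (by norm_num) (by norm_num)))⟩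
    exact (H_le _ (hu _)).trans (pow_le_pow_of_le_one (by norm_num) (by norm_num) (h3 n))
  · push Not at h
    obtain ⟨p, h1, h2⟩ := h
    obtain ⟨φ, h3, h4⟩ := extraction_of_frequently_atTop h1
    choose w hw using h4
    obtain ⟨u0, h5, ψ, h6, h7⟩ := isCompact_Icc.tendsto_subseq
      (x := fun n => Hh (w n) (u (φ n))) fun n => H_mem _ (hu _)
    refine ⟨φ ∘ ψ, h3.comp h6, Or.inr ⟨p, w ∘ ψ, u0, h5, fun n => (hw _).symm, fun N => ?_, h7⟩⟩
    have h8 : ∀ᶠ n in atTop, ∀ a ∈ Finset.range N, ¬ p ++ [a] <+: s n :=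
      (eventually_all_finset _).2 fun a _ => h2 a
    filter_upwards [(h3.comp h6).tendsto_atTop.eventually h8] with n hn a w' h9
    by_contra h10
    refine hn a (Finset.mem_range.2 (not_le.1 h10)) ⟨w', ?_⟩
    have := hw (ψ n)
    simp only [Function.comp] at h9 ⊢
    rw [← this, h9]
    simp

def Phi (T : Set (List ℕ)) : Set (V (List ℕ)) := {x | ∃ s ∈ T, ∃ u ∈ Icc (0 : ℝ) 1, P s u = x}

structure Tree (T : Set (List ℕ)) : Prop where
  nil : [] ∈ T
  pre : ∀ s w, s ++ w ∈ T → s ∈ T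

variable {T : Set (List ℕ)}

lemma smul_mem {s : List ℕ} (hs : s ∈ T) {r : ℝ} (h : r ∈ Icc 0 (Hh s 1)) : r • dir s ∈ Phi T := by
  obtain ⟨u, hu, h1⟩ := intermediate_value_Icc zero_le_one (H_cont s).continuousOn
    (by rwa [H_zero])
  exact ⟨s, hs, u, hu, by rw [P, h1]⟩

lemma cone (hT : Tree T) : Cone (Phi T) where
  cpt := by
    refine IsSeqCompact.isCompact fun x hx => ?_
    choose s hs u hu h using hx
    obtain ⟨φ, h1, h2 | ⟨s0, w, u0, h2, h3, h4, h5⟩⟩ := conv s hu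
    · exact ⟨0, ⟨[], hT.nil, 0, by simp, P_zero _⟩, φ, h1, (P_tend0 h2).congr fun n => h _⟩
    · refine ⟨_, ⟨s0, hT.pre _ _ (h3 0 ▸ hs _), u0, h2, rfl⟩, φ, h1,
        (P_tend h4 s0 h5).congr fun n => ?_⟩
      rw [← h3, h]
      rfl
  zero := ⟨[], hT.nil, 0, by simp, P_zero _⟩
  nonneg := by
    rintro _ ⟨s, _, u, hu, rfl⟩
    rw [P_fst]
    exact H_nonneg _ hu.1
  coord := by
    rintro _ ⟨s, _, u, hu, rfl⟩ i
    simp only [P, dir, chi, Prod.smul_snd, Pi.smul_apply, Prod.smul_fst]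
    split_ifs <;> simp
  star := by
    rintro _ ⟨s, hs, u, hu, rfl⟩ r hr
    rw [P, smul_smul]
    have h1 := H_nonneg s hu.1
    exact smul_mem hs ⟨mul_nonneg hr.1 h1,
      (mul_le_of_le_one_left h1 hr.2).trans ((H_mono s).monotone hu.2)⟩

lemma P_NP {s s' : List ℕ} (h : s ≠ s') : NP (P s 1) (P s' 1) := by
  intro r r' h1
  simp only [P, smul_smul] at h1
  obtain ⟨h2, h3⟩ := dir_inj h1
  have h4 := h3.resolve_right h
  exact ⟨(mul_eq_zero.1 h4).resolve_right (H_pos _ one_pos).ne',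
    (mul_eq_zero.1 (h2 ▸ h4)).resolve_right (H_pos _ one_pos).ne'⟩

lemma end_iff {x : V (List ℕ)} (hx : x ∈ Phi T) :
    (x ≠ 0 ∧ ∀ r : ℝ, 1 < r → r • x ∉ Phi T) ↔ ∃ s ∈ T, P s 1 = x := by
  constructor
  · rintro ⟨h0, h⟩
    obtain ⟨s, hs, u, hu, rfl⟩ := hx
    refine ⟨s, hs, ?_⟩
    by_contra h1
    have h2 : u < 1 := lt_of_le_of_ne hu.2 (by rintro rfl; exact h1 rfl)
    have h3 : 0 < u := lt_of_le_of_ne hu.1 (by rintro rfl; exact h0 (P_zero _))
    have h4 := H_pos s h3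
    refine h (Hh s 1 / Hh s u) ((one_lt_div h4).2 (H_mono s h2)) ⟨s, hs, 1, by simp, ?_⟩
    rw [P, P, smul_smul, div_mul_cancel₀ _ h4.ne']
  · rintro ⟨s, hs, rfl⟩
    have h4 := H_pos s one_pos
    refine ⟨fun h => h4.ne' (by rw [← P_fst, h]; rfl), ?_⟩
    rintro r hr ⟨s', _, u, hu, h⟩
    rw [P, P, smul_smul] at h
    obtain ⟨h1, h2 | rfl⟩ := dir_inj h
    · nlinarith
    · have := (H_mono s').monotone hu.2
      nlinarith

end Pool.Agent.H.MP_56c207_gt
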